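import Pool.Agent.H71.PX.Targets

/-!
# Row NW of pfc_modules: the labels of the new number
-/

set_option autoImplicit false
set_option linter.unusedVariables false

open Pool.Agent.H71.PX

namespace Pool.Agent.H86.PX.NW

theorem pf_NW (ra : T_RA) (rc : T_RC) (uq : T_UQ) : T_NW := by
  intro α Q m U Hh Vv n v h I w hw hs
  have hv : m.N (n v) := I.num v le_rfl
  have hlt : m.Lt (n v) w := (h.uN hv hw).2.2.1 hs
  have hne : ∀ k ≤ v, w ≠ n k := by
    intro k hk hwk
    rcases Nat.lt_or_ge k v with hkv | hkv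
    · have h1 := I.ord k v hkv le_rfl
      rw [← hwk] at h1
      exact (h.uN hv hw).2.1 hlt h1
    · have hkv' : k = v := le_antisymm hk hkv
      subst hkv'
      rw [hwk] at hlt
      exact (h.uN hv hv).2.1 hlt hlt
  refine ⟨hne, ?_⟩
  intro z hz a
  constructor
  · intro hp
    have hnc : NC m n v a z := by
      intro k hk hpk
      exact hne k hk (I.s k hk a z w hz hw hpk hp)
    have hL := (ra α Q m U Hh Vv n v h I z hz).1 v le_rfl a hnc
    obtain ⟨y, hy, hsy, hy2⟩ := h.run hv hz (h.L1 hv hz hL)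
    have hyw := uq α Q m U Hh Vv n v h I y w hy hw hsy hs
    subst hyw
    exact (hy2 a).1.1 hp
  · intro hr
    have hL := (h.uP hv hz).2.1 a hr
    obtain ⟨y, hy, hsy, hy2⟩ := h.run hv hz (h.L1 hv hz hL)
    have hyw := uq α Q m U Hh Vv n v h I y w hy hw hsy hs
    subst hyw
    exact (hy2 a).1.2 hr

end Pool.Agent.H86.PX.NW
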